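import Mathlib
import Pool.Agent.H22.ThueFib

namespace Pool.Agent.Results.MP_36a07b_nt.EvenCase

open Pool.Agent.H22.ThueFib

theorem result : ∀ n : ℕ, 1 ≤ n →
    h (2 * (2 ^ (2 * n) - 3)) ≡ 0 [ZMOD h (2 ^ (2 * n) - 3)] := by
  intro n hn
  obtain ⟨m, rfl⟩ : ∃ m, n = m + 1 := ⟨n - 1, by omega⟩
  have := main (2 * m)
  rw [Int.modEq_zero_iff_dvd]
  simpa [mul_add] using this

end Pool.Agent.Results.MP_36a07b_nt.EvenCase
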