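import Mathlib
import Pool.Agent.H22.ThueFib

namespace Pool.Agent.Results.MP_36a07b_nt.OddCase

open Pool.Agent.H22.ThueFib

theorem result : ∀ k : ℕ, Odd k → 3 ≤ k →
    h (2 * (2 ^ k - 3)) ≡ -2 [ZMOD h (2 ^ k - 3)] := by
  rintro k ⟨m, rfl⟩ hk
  obtain ⟨m, rfl⟩ : ∃ j, m = j + 1 := ⟨m - 1, by omega⟩
  have := main (2 * m + 1)
  rw [show 2 * (m + 1) + 1 = 2 * m + 1 + 2 by ring]
  apply Int.ModEq.symm
  rw [Int.modEq_iff_dvd]
  convert this using 1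
  rw [pow_succ (-1 : ℤ), pow_mul]
  ring

end Pool.Agent.Results.MP_36a07b_nt.OddCase
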